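import Mathlib
import Pool.Agent.TWD.Main
import Pool.Agent.TWD.Upper
import Pool.Agent.TWD.Quant97
import Pool.Agent.TWD.Cond

set_option autoImplicit false

/-!
# MP_d4db49_nt: how many `n` satisfy the assertion, and the number of twin prime pairs

`G N` is the number of the `n ≤ N` for which there is a prime `p < n` such that `r = T (n - p)` and
`r + 2` are prime.  It is of larger order than `N / log N` if and only if there are infinitely many
twin prime pairs or their number is the smaller member of a twin prime pair.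
-/

namespace Pool.Agent.Results.MP_d4db49_nt.TwinAlternative

open Filter Topology Pool.Agent.TWD

/-- The number of the integers `1 ≤ k ≤ y` for which `T k` and `T k + 2` are prime. -/
noncomputable def D (y : ℝ) : ℕ := {k : ℕ | 1 ≤ k ∧ (k : ℝ) ≤ y ∧ Tw (T k)}.ncard

/-- `Tw q`: `q` and `q + 2` are prime.  `T x`: the number of the `q ≤ x` with `Tw q`.
`Good n`: there is a prime `p < n` with `Tw (T (n - p))`.  `G N`: the number of the good `n ≤ N`.
`Alt`: there are infinitely many `q` with `Tw q`, or `Tw` holds for their number.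

(1) `Alt` holds if and only if `G N * log N / N → ∞`, and if and only if for no `C` one has
`G N ≤ C * N / log N` for all `N ≥ 2`.  If all large `n` are good, then `Alt` holds.  If `Alt` holds
and there are only finitely many `q` with `Tw q`, then all large `n` are good.

(2) Up to constants `G N` is at most `D N * N / log N` and, for large `N`, at least
`min (D ((log N) ^ 4)) (log N / log log log N) * N / log N`.

(3) If `T x ≥ √x` for all large `x`, then `G N ≥ c * N / log log log N` for all large `N`. -/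
theorem result :
    ((Alt ↔ Tendsto (fun N : ℕ => (G N : ℝ) * Real.log N / N) atTop atTop) ∧
      (Alt ↔ ∀ C : ℝ, ∃ N : ℕ, 2 ≤ N ∧ C * N / Real.log N < G N) ∧
      ((∀ᶠ n : ℕ in atTop, Good n) → Alt) ∧
      ({q : ℕ | Tw q}.Finite → Alt → ∀ᶠ n : ℕ in atTop, Good n)) ∧
    ((∃ C : ℝ, 0 < C ∧ ∀ N : ℕ, 2 ≤ N → (G N : ℝ) ≤ C * (N / Real.log N) * D N) ∧
      ∃ c : ℝ, 0 < c ∧ ∀ᶠ N : ℕ in atTop,
        c * (N / Real.log N) *
          min (D (Real.log N ^ 4) : ℝ) (Real.log N / Real.log (Real.log (Real.log N))) ≤ (G N : ℝ)) ∧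
    ((∀ᶠ x : ℕ in atTop, Real.sqrt x ≤ T x) → ∃ c : ℝ, 0 < c ∧ ∀ᶠ N : ℕ in atTop,
      c * N / Real.log (Real.log (Real.log N)) ≤ (G N : ℝ)) := by
  refine ⟨main, ⟨?_, quant97⟩, cond⟩
  obtain ⟨C, hC, h⟩ := Pool.Agent.TWD.upper
  refine ⟨C, hC, fun N hN => ?_⟩
  have e : D N = {k : ℕ | 1 ≤ k ∧ k ≤ N ∧ Tw (T k)}.ncard := by
    unfold D
    simp only [Nat.cast_le]
  rw [e]
  exact h N hN

end Pool.Agent.Results.MP_d4db49_nt.TwinAlternative
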